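import Pool.Graph.R_seed8.H919R4.ZS.Defs

/-!
The augmented homogeneous chain complex of a set, its cone operators, and comparison with a finite
free resolution.
-/

set_option autoImplicit false

namespace Pool.Agent.Helper80.SE

open Pool.Agent.H919R4.ZS (FinRes augm)

noncomputable section

variable {G : Type} [Group G]

/-- the chains with `n` vertices in the set `T` -/
abbrev B (T : Type) (n : ℕ) : Type := (Fin n → T) →₀ ℤ

/-- the boundary, with the augmentation as the first boundary -/
def bdry (T : Type) (n : ℕ) : B T (n + 1) →+ B T n :=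
  Finsupp.liftAddHom fun x =>
    ∑ a : Fin (n + 1), ((-1 : ℤ) ^ (a : ℕ)) • Finsupp.singleAddHom (x ∘ a.succAbove)

lemma bdry_single {T : Type} {n : ℕ} (x : Fin (n + 1) → T) (z : ℤ) :
    bdry T n (Finsupp.single x z) =
      ∑ a : Fin (n + 1), ((-1 : ℤ) ^ (a : ℕ)) • Finsupp.single (x ∘ a.succAbove) z := by
  rw [bdry, Finsupp.liftAddHom_apply_single, AddMonoidHom.finsetSum_apply]
  rfl

/-- prepending a vertex -/
def cone {T : Type} (t : T) (n : ℕ) : B T n →+ B T (n + 1) :=
  Finsupp.liftAddHom fun x => Finsupp.singleAddHom (Fin.cons t x)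

lemma cone_single {T : Type} {n : ℕ} (t : T) (x : Fin n → T) (z : ℤ) :
    cone t n (Finsupp.single x z) = Finsupp.single (Fin.cons t x : Fin (n + 1) → T) z := by
  rw [cone, Finsupp.liftAddHom_apply_single]
  rfl

lemma cons_comp_succAbove {T : Type} {n : ℕ} (t : T) (x : Fin (n + 1) → T) (a : Fin (n + 1)) :
    (Fin.cons t x : Fin (n + 2) → T) ∘ (a.succ).succAbove = Fin.cons t (x ∘ a.succAbove) := by
  funext b
  refine Fin.cases ?_ (fun b => ?_) b
  · simp
  · simp [Function.comp]

lemma bdry_cone {T : Type} {n : ℕ} (t : T) (z : B T (n + 1)) :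
    bdry T (n + 1) (cone t (n + 1) z) = z - cone t n (bdry T n z) := by
  have h : (bdry T (n + 1)).comp (cone t (n + 1)) =
      AddMonoidHom.id _ - (cone t n).comp (bdry T n) := by
    refine Finsupp.addHom_ext fun x m => ?_
    rw [AddMonoidHom.comp_apply, cone_single, bdry_single, Fin.sum_univ_succ,
      AddMonoidHom.sub_apply, AddMonoidHom.comp_apply, bdry_single, map_sum]
    have e0 : ((Fin.cons t x : Fin (n + 2) → T) ∘ (0 : Fin (n + 2)).succAbove) = x := by
      funext b
      simp [Function.comp]
    rw [e0]
    simp only [cons_comp_succAbove, Fin.val_zero, pow_zero, one_smul, Fin.val_succ, pow_succ,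
      mul_neg, mul_one, neg_smul, Finset.sum_neg_distrib, map_zsmul, cone_single,
      AddMonoidHom.id_apply, sub_eq_add_neg]
  exact DFunLike.congr_fun h z

lemma bdry_cone_zero {T : Type} (t : T) (z : B T 0) : bdry T 0 (cone t 0 z) = z := by
  have h : (bdry T 0).comp (cone t 0) = AddMonoidHom.id _ := by
    refine Finsupp.addHom_ext fun x m => ?_
    rw [AddMonoidHom.comp_apply, cone_single, bdry_single, Fin.sum_univ_one]
    have e0 : ((Fin.cons t x : Fin 1 → T) ∘ (0 : Fin 1).succAbove) = x := by
      funext b
      exact b.elim0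
    rw [e0]
    simp
  exact DFunLike.congr_fun h z

lemma bdry_bdry {T : Type} (n : ℕ) (z : B T (n + 2)) : bdry T n (bdry T (n + 1) z) = 0 := by
  induction n with
  | zero =>
    have h : (bdry T 0).comp (bdry T 1) = 0 := by
      refine Finsupp.addHom_ext fun x m => ?_
      rw [AddMonoidHom.comp_apply, bdry_single, Fin.sum_univ_two, map_add, map_zsmul, map_zsmul,
        bdry_single, bdry_single, Fin.sum_univ_one, Fin.sum_univ_one]
      have e : ∀ y : Fin 0 → T, y = Fin.elim0 := fun y => Subsingleton.elim _ _
      rw [e ((x ∘ (0 : Fin 2).succAbove) ∘ (0 : Fin 1).succAbove),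
        e ((x ∘ (1 : Fin 2).succAbove) ∘ (0 : Fin 1).succAbove)]
      simp
    exact DFunLike.congr_fun h z
  | succ n ih =>
    have h : (bdry T (n + 1)).comp (bdry T (n + 2)) = 0 := by
      refine Finsupp.addHom_ext fun x m => ?_
      have e : (x : Fin (n + 3) → T) = Fin.cons (x 0) (Fin.tail x) := (Fin.cons_self_tail x).symm
      have e2 : Finsupp.single x m = cone (x 0) (n + 2) (Finsupp.single (Fin.tail x) m) := by
        rw [cone_single, ← e]
      rw [AddMonoidHom.comp_apply, e2, bdry_cone, map_sub, bdry_cone, ih, map_zero, sub_zero,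
        sub_self, AddMonoidHom.zero_apply]
    exact DFunLike.congr_fun h z

/-- the map of chains induced by a map of sets -/
def push {T U : Type} (r : T → U) (n : ℕ) : B T n →+ B U n :=
  Finsupp.mapDomain.addMonoidHom fun x => r ∘ x

lemma push_single {T U : Type} (r : T → U) {n : ℕ} (x : Fin n → T) (z : ℤ) :
    push r n (Finsupp.single x z) = Finsupp.single (r ∘ x) z := Finsupp.mapDomain_single

lemma bdry_push {T U : Type} (r : T → U) {n : ℕ} (z : B T (n + 1)) :
    bdry U n (push r (n + 1) z) = push r n (bdry T n z) := by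
  have h : (bdry U n).comp (push r (n + 1)) = (push r n).comp (bdry T n) := by
    refine Finsupp.addHom_ext fun x m => ?_
    rw [AddMonoidHom.comp_apply, AddMonoidHom.comp_apply, push_single, bdry_single, bdry_single,
      map_sum]
    refine Finset.sum_congr rfl fun a _ => ?_
    rw [map_zsmul, push_single]
    rfl
  exact DFunLike.congr_fun h z

lemma push_push {T U W : Type} (r : T → U) (s : U → W) {n : ℕ} (z : B T n) :
    push s n (push r n z) = push (s ∘ r) n z := by
  have h : (push s n).comp (push r n) = push (s ∘ r) n := by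
    refine Finsupp.addHom_ext fun x m => ?_
    rw [AddMonoidHom.comp_apply, push_single, push_single, push_single]
    rfl
  exact DFunLike.congr_fun h z

lemma push_cone {T U : Type} (r : T → U) (t : T) {n : ℕ} (z : B T n) :
    push r (n + 1) (cone t n z) = cone (r t) n (push r n z) := by
  have h : (push r (n + 1)).comp (cone t n) = (cone (r t) n).comp (push r n) := by
    refine Finsupp.addHom_ext fun x m => ?_
    rw [AddMonoidHom.comp_apply, AddMonoidHom.comp_apply, cone_single, push_single, push_single,
      cone_single]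
    congr 1
    funext b
    refine Fin.cases ?_ (fun b => ?_) b <;> simp [Function.comp]
  exact DFunLike.congr_fun h z

/-- left translation of chains -/
def tr (g : G) (n : ℕ) : B G n →+ B G n := push (fun h => g * h) n

lemma tr_single (g : G) {n : ℕ} (x : Fin n → G) (z : ℤ) :
    tr g n (Finsupp.single x z) = Finsupp.single (fun a => g * x a) z := push_single _ _ _

lemma tr_one {n : ℕ} (z : B G n) : tr (1 : G) n z = z := by
  have h : tr (1 : G) n = AddMonoidHom.id _ := by
    refine Finsupp.addHom_ext fun x m => ?_
    rw [tr_single, AddMonoidHom.id_apply]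
    simp only [one_mul]
  rw [h, AddMonoidHom.id_apply]

lemma tr_mul (g h : G) {n : ℕ} (z : B G n) : tr (g * h) n z = tr g n (tr h n z) := by
  rw [tr, tr, tr, push_push]
  congr 2
  funext k
  exact mul_assoc _ _ _

lemma bdry_tr (g : G) {n : ℕ} (z : B G (n + 1)) : bdry G n (tr g (n + 1) z) = tr g n (bdry G n z) :=
  bdry_push _ _

end

end Pool.Agent.Helper80.SE
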