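import Pool.Agent.Helper80.SE.Bar

/-!
Chain maps between the homogeneous complex of a group and a finite free resolution.
-/

set_option autoImplicit false

namespace Pool.Agent.Helper80.SE

open Pool.Agent.H919R4.ZS (FinRes augm)

noncomputable section

variable {G : Type} [Group G]

/-- additive maps from chains -/
def lin {T A : Type} [AddCommGroup A] {n : ℕ} (f : (Fin n → T) → A) : B T n →+ A :=
  Finsupp.liftAddHom fun x => (zmultiplesHom A) (f x)

lemma lin_single {T A : Type} [AddCommGroup A] {n : ℕ} (f : (Fin n → T) → A) (x : Fin n → T)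
    (z : ℤ) : lin f (Finsupp.single x z) = z • f x := by
  rw [lin, Finsupp.liftAddHom_apply_single]
  rfl

lemma hom_ext {T A : Type} [AddCommGroup A] {n : ℕ} {f g : B T n →+ A}
    (h : ∀ x, f (Finsupp.single x 1) = g (Finsupp.single x 1)) : f = g := by
  refine Finsupp.addHom_ext fun x m => ?_
  have e : Finsupp.single x m = m • Finsupp.single x (1 : ℤ) := by
    rw [Finsupp.smul_single, smul_eq_mul, mul_one]
  rw [e, map_zsmul, map_zsmul, h]

lemma end_add {A : Type} [AddCommGroup A] (f g : AddMonoid.End A) (a : A) :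
    (f + g) a = f a + g a := rfl

lemma end_mul {A : Type} [AddCommGroup A] (f g : AddMonoid.End A) (a : A) :
    (f * g) a = f (g a) := rfl

lemma end_sum {A ι : Type} [AddCommGroup A] (s : Finset ι) (f : ι → AddMonoid.End A) (a : A) :
    (∑ i ∈ s, f i) a = ∑ i ∈ s, f i a := AddMonoidHom.finsetSum_apply _ _ _

/-- the ring homomorphism given by an action -/
def ring {A : Type} [AddCommGroup A] (ρ : G →* AddMonoid.End A) :
    MonoidAlgebra ℤ G →+* AddMonoid.End A :=
  (MonoidAlgebra.lift ℤ (AddMonoid.End A) G ρ).toRingHom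

lemma ring_single {A : Type} [AddCommGroup A] (ρ : G →* AddMonoid.End A) (g : G) (z : ℤ) (a : A) :
    ring ρ (MonoidAlgebra.single g z) a = z • ρ g a := by
  change (MonoidAlgebra.lift ℤ (AddMonoid.End A) G ρ) (MonoidAlgebra.single g z) a = _
  rw [MonoidAlgebra.lift_single]
  rfl

/-- additive maps commuting with the action commute with the group ring -/
lemma ring_comm {A A' : Type} [AddCommGroup A] [AddCommGroup A'] (ρ : G →* AddMonoid.End A)
    (ρ' : G →* AddMonoid.End A') (f : A →+ A') (h : ∀ g a, f (ρ g a) = ρ' g (f a))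
    (x : MonoidAlgebra ℤ G) (a : A) : f (ring ρ x a) = ring ρ' x (f a) := by
  refine MonoidAlgebra.induction_linear x ?_ ?_ ?_
  · simp
  · intro x y hx hy
    rw [map_add, map_add, end_add, end_add, map_add, hx, hy]
  · intro g z
    rw [ring_single, ring_single, map_zsmul, h]

/-- the linear map with the given values on the basis -/
def liftB {A : Type} [AddCommGroup A] (ρ : G →* AddMonoid.End A) {m : ℕ} (β : Fin m → A) :
    (Fin m → MonoidAlgebra ℤ G) →+ A where
  toFun z := ∑ j, ring ρ (z j) (β j)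
  map_zero' := by simp
  map_add' z w := by
    simp only [Pi.add_apply, map_add, end_add, Finset.sum_add_distrib]

lemma liftB_apply {A : Type} [AddCommGroup A] (ρ : G →* AddMonoid.End A) {m : ℕ} (β : Fin m → A)
    (z : Fin m → MonoidAlgebra ℤ G) : liftB ρ β z = ∑ j, ring ρ (z j) (β j) := rfl

lemma liftB_vecMul {A : Type} [AddCommGroup A] (ρ : G →* AddMonoid.End A) {m k : ℕ}
    (β : Fin m → A) (z : Fin k → MonoidAlgebra ℤ G)
    (M : Matrix (Fin k) (Fin m) (MonoidAlgebra ℤ G)) :
    liftB ρ β (Matrix.vecMul z M) = ∑ j, ring ρ (z j) (liftB ρ β (M j)) := by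
  simp only [liftB_apply, Matrix.vecMul, dotProduct, map_sum, end_sum, map_mul, end_mul]
  exact Finset.sum_comm

/-- translation of row vectors -/
def trX (g : G) {m : ℕ} : (Fin m → MonoidAlgebra ℤ G) →+ (Fin m → MonoidAlgebra ℤ G) where
  toFun z j := MonoidAlgebra.single g 1 * z j
  map_zero' := by funext j; simp
  map_add' z w := by funext j; simp [mul_add]

lemma trX_apply (g : G) {m : ℕ} (z : Fin m → MonoidAlgebra ℤ G) (j : Fin m) :
    trX g z j = MonoidAlgebra.single g 1 * z j := rfl

lemma trX_one {m : ℕ} (z : Fin m → MonoidAlgebra ℤ G) : trX (1 : G) z = z := by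
  funext j
  rw [trX_apply, ← MonoidAlgebra.one_def, one_mul]

lemma trX_mul (g h : G) {m : ℕ} (z : Fin m → MonoidAlgebra ℤ G) :
    trX (g * h) z = trX g (trX h z) := by
  funext j
  rw [trX_apply, trX_apply, trX_apply, ← mul_assoc, MonoidAlgebra.single_mul_single, one_mul]

lemma trX_vecMul (g : G) {m k : ℕ} (z : Fin k → MonoidAlgebra ℤ G)
    (M : Matrix (Fin k) (Fin m) (MonoidAlgebra ℤ G)) :
    Matrix.vecMul (trX g z) M = trX g (Matrix.vecMul z M) := by
  funext j
  simp only [Matrix.vecMul, dotProduct, trX_apply, Finset.mul_sum, mul_assoc]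

lemma liftB_trX {A : Type} [AddCommGroup A] (ρ : G →* AddMonoid.End A) {m : ℕ} (β : Fin m → A)
    (g : G) (z : Fin m → MonoidAlgebra ℤ G) : liftB ρ β (trX g z) = ρ g (liftB ρ β z) := by
  simp only [liftB_apply, trX_apply, map_mul, end_mul, map_sum]
  refine Finset.sum_congr rfl fun j _ => ?_
  rw [ring_single, one_smul]

/-- the action on chains -/
def trHom (G : Type) [Group G] (n : ℕ) : G →* AddMonoid.End (B G n) where
  toFun g := tr g n
  map_one' := AddMonoidHom.ext fun z => tr_one z
  map_mul' g h := AddMonoidHom.ext fun z => tr_mul g h z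

lemma trHom_apply (g : G) {n : ℕ} (z : B G n) : trHom G n g z = tr g n z := rfl

variable (X : FinRes G)

/-- from the resolution to the homogeneous complex -/
def Phi : ∀ n : ℕ, (Fin (X.n n) → MonoidAlgebra ℤ G) →+ B G (n + 1)
  | 0 => liftB (trHom G 1) fun j => Finsupp.single (fun _ => (1 : G)) (X.aug j)
  | n + 1 => liftB (trHom G (n + 2)) fun j => cone 1 (n + 1) (Phi n (X.d n j))

lemma Phi_tr : ∀ (n : ℕ) (g : G) (z : Fin (X.n n) → MonoidAlgebra ℤ G),
    Phi X n (trX g z) = tr g (n + 1) (Phi X n z)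
  | 0, g, z => liftB_trX _ _ g z
  | _ + 1, g, z => liftB_trX _ _ g z

lemma vecMul_d_zero (n : ℕ) (z : Fin (X.n (n + 2)) → MonoidAlgebra ℤ G) :
    Matrix.vecMul (Matrix.vecMul z (X.d (n + 1))) (X.d n) = 0 := by
  exact (X.exact_succ n _).2 ⟨z, rfl⟩

lemma augm_d_zero (z : Fin (X.n 1) → MonoidAlgebra ℤ G) :
    ∑ j, augm G (Matrix.vecMul z (X.d 0) j) * X.aug j = 0 := (X.exact_zero _).2 ⟨z, rfl⟩

/-- the augmentation of the resolution -/
def augX : (Fin (X.n 0) → MonoidAlgebra ℤ G) →+ ℤ where
  toFun z := ∑ j, augm G (z j) * X.aug j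
  map_zero' := by simp
  map_add' z w := by simp [add_mul, Finset.sum_add_distrib]

lemma augX_apply (z : Fin (X.n 0) → MonoidAlgebra ℤ G) :
    augX X z = ∑ j, augm G (z j) * X.aug j := rfl

lemma augm_single (g : G) (z : ℤ) : augm G (MonoidAlgebra.single g z) = z := by
  change (MonoidAlgebra.lift ℤ ℤ G (1 : G →* ℤ)) (MonoidAlgebra.single g z) = z
  rw [MonoidAlgebra.lift_single]
  simp

lemma augX_trX (g : G) (z : Fin (X.n 0) → MonoidAlgebra ℤ G) : augX X (trX g z) = augX X z := by
  simp only [augX_apply, trX_apply, map_mul, augm_single, one_mul]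

lemma tr_zero_eq (g : G) (z : B G 0) : tr g 0 z = z := by
  have h : tr g 0 = AddMonoidHom.id (B G 0) := by
    refine Finsupp.addHom_ext fun x m => ?_
    rw [tr_single, AddMonoidHom.id_apply]
    congr 1
    exact Subsingleton.elim _ _
  rw [h, AddMonoidHom.id_apply]

/-- the point of the augmentation -/
def pt (T : Type) (z : ℤ) : B T 0 := Finsupp.single Fin.elim0 z

lemma ring_trHom_zero (a : MonoidAlgebra ℤ G) (z : B G 0) :
    ring (trHom G 0) a z = augm G a • z := by
  refine MonoidAlgebra.induction_linear a ?_ ?_ ?_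
  · simp
  · intro x y hx hy
    rw [map_add, map_add, end_add, hx, hy, add_smul]
  · intro g m
    rw [ring_single, augm_single, trHom_apply, tr_zero_eq]

lemma bdry_Phi_zero (z : Fin (X.n 0) → MonoidAlgebra ℤ G) :
    bdry G 0 (Phi X 0 z) = pt G (augX X z) := by
  rw [Phi, liftB_apply, map_sum, augX_apply, pt]
  have e : ∀ j, bdry G 0 (ring (trHom G 1) (z j) (Finsupp.single (fun _ => (1 : G)) (X.aug j))) =
      Finsupp.single Fin.elim0 (augm G (z j) * X.aug j) := by
    intro j
    rw [ring_comm (trHom G 1) (trHom G 0) (bdry G 0) (fun g a => bdry_tr g a), ring_trHom_zero,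
      bdry_single, Fin.sum_univ_one]
    simp only [Fin.val_zero, pow_zero, one_smul, Finsupp.smul_single, smul_eq_mul]
    congr 1
    exact Subsingleton.elim _ _
  rw [Finset.sum_congr rfl fun j _ => e j, Finsupp.single_finsetSum]

lemma bdry_Phi_succ : ∀ (n : ℕ) (z : Fin (X.n (n + 1)) → MonoidAlgebra ℤ G),
    bdry G (n + 1) (Phi X (n + 1) z) = Phi X n (Matrix.vecMul z (X.d n)) := by
  intro n
  have key : ∀ j : Fin (X.n (n + 1)), bdry G n (Phi X n (X.d n j)) = 0 := by
    intro j
    classical
    have hj : (X.d n j : Fin (X.n n) → MonoidAlgebra ℤ G) =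
        Matrix.vecMul (Pi.single j (1 : MonoidAlgebra ℤ G)) (X.d n) := by
      rw [Matrix.single_one_vecMul]
      rfl
    rw [hj]
    induction n with
    | zero =>
      rw [bdry_Phi_zero, augX_apply, augm_d_zero, pt, Finsupp.single_zero]
    | succ n ih =>
      have h2 : ∀ z : Fin (X.n (n + 1)) → MonoidAlgebra ℤ G,
          bdry G (n + 1) (Phi X (n + 1) z) = Phi X n (Matrix.vecMul z (X.d n)) := by
        intro z
        rw [Phi, liftB_apply, map_sum]
        have e : ∀ k, bdry G (n + 1) (ring (trHom G (n + 2)) (z k)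
            (cone 1 (n + 1) (Phi X n (X.d n k)))) =
            ring (trHom G (n + 1)) (z k) (Phi X n (X.d n k)) := by
          intro k
          rw [ring_comm (trHom G (n + 2)) (trHom G (n + 1)) (bdry G (n + 1))
            (fun g a => bdry_tr g a), bdry_cone]
          have hk : (X.d n k : Fin (X.n n) → MonoidAlgebra ℤ G) =
              Matrix.vecMul (Pi.single k (1 : MonoidAlgebra ℤ G)) (X.d n) := by
            rw [Matrix.single_one_vecMul]
            rfl
          rw [hk, ih k hk, map_zero, sub_zero]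
        rw [Finset.sum_congr rfl fun k _ => e k]
        cases n with
        | zero => exact (liftB_vecMul _ _ _ _).symm
        | succ n => exact (liftB_vecMul _ _ _ _).symm
      rw [h2, vecMul_d_zero, map_zero]
  intro z
  rw [Phi, liftB_apply, map_sum]
  have e : ∀ k, bdry G (n + 1) (ring (trHom G (n + 2)) (z k)
      (cone 1 (n + 1) (Phi X n (X.d n k)))) =
      ring (trHom G (n + 1)) (z k) (Phi X n (X.d n k)) := by
    intro k
    rw [ring_comm (trHom G (n + 2)) (trHom G (n + 1)) (bdry G (n + 1))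
      (fun g a => bdry_tr g a), bdry_cone, key k, map_zero, sub_zero]
  rw [Finset.sum_congr rfl fun k _ => e k]
  cases n with
  | zero => exact (liftB_vecMul _ _ _ _).symm
  | succ n => exact (liftB_vecMul _ _ _ _).symm

end

end Pool.Agent.Helper80.SE
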