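import Pool.Agent.Helper80.SE.Comp

/-!
The chain map back and the homotopy.
-/

set_option autoImplicit false

namespace Pool.Agent.Helper80.SE

open Pool.Agent.H919R4.ZS (FinRes augm)

noncomputable section

variable {G : Type} [Group G] (X : FinRes G)

/-- an element of augmentation one -/
def bp : Fin (X.n 0) → MonoidAlgebra ℤ G := X.surj.choose

lemma bp_spec : augX X (bp X) = 1 := X.surj.choose_spec

open Classical in
/-- a filling -/
def fill (n : ℕ) (z : Fin (X.n n) → MonoidAlgebra ℤ G) : Fin (X.n (n + 1)) → MonoidAlgebra ℤ G :=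
  if h : ∃ y, Matrix.vecMul y (X.d n) = z then h.choose else 0

lemma fill_spec (n : ℕ) (z : Fin (X.n n) → MonoidAlgebra ℤ G)
    (h : ∃ y, Matrix.vecMul y (X.d n) = z) : Matrix.vecMul (fill X n z) (X.d n) = z := by
  rw [fill, dif_pos h]
  exact h.choose_spec

/-- the simplex `x` -/
abbrev sx {T : Type} {n : ℕ} (x : Fin n → T) : B T n := Finsupp.single x 1

/-- the differential as an additive map -/
def dX (n : ℕ) : (Fin (X.n (n + 1)) → MonoidAlgebra ℤ G) →+ (Fin (X.n n) → MonoidAlgebra ℤ G) where
  toFun z := Matrix.vecMul z (X.d n)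
  map_zero' := Matrix.zero_vecMul _
  map_add' _ _ := Matrix.add_vecMul _ _ _

lemma dX_apply (n : ℕ) (z : Fin (X.n (n + 1)) → MonoidAlgebra ℤ G) :
    dX X n z = Matrix.vecMul z (X.d n) := rfl

lemma dX_dX (n : ℕ) (z : Fin (X.n (n + 2)) → MonoidAlgebra ℤ G) : dX X n (dX X (n + 1) z) = 0 :=
  vecMul_d_zero X n z

lemma dX_trX (n : ℕ) (g : G) (z : Fin (X.n (n + 1)) → MonoidAlgebra ℤ G) :
    dX X n (trX g z) = trX g (dX X n z) := trX_vecMul _ _ _

/-- the chain map back -/
def iota : ∀ n : ℕ, B G (n + 1) →+ (Fin (X.n n) → MonoidAlgebra ℤ G)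
  | 0 => lin fun x => trX (x 0) (bp X)
  | n + 1 => lin fun x => trX (x 0) (fill X n (iota n (tr (x 0)⁻¹ (n + 1) (bdry G (n + 1) (sx x)))))

lemma iota_tr : ∀ (n : ℕ) (g : G) (z : B G (n + 1)),
    iota X n (tr g (n + 1) z) = trX g (iota X n z) := by
  intro n g z
  have h : (iota X n).comp (tr g (n + 1)) = (trX g).comp (iota X n) := by
    refine hom_ext fun x => ?_
    rw [AddMonoidHom.comp_apply, AddMonoidHom.comp_apply, tr_single]
    cases n with
    | zero => rw [iota, lin_single, lin_single, one_smul, one_smul, trX_mul]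
    | succ n =>
      rw [iota, lin_single, lin_single, one_smul, one_smul, trX_mul]
      congr 4
      have e : (sx fun a => g * x a : B G (n + 2)) = tr g (n + 2) (sx x) := (tr_single _ _ _).symm
      rw [e, bdry_tr, ← tr_mul]
      congr 2
      group
  exact DFunLike.congr_fun h z

lemma augX_iota (z : B G 1) : pt G (augX X (iota X 0 z)) = bdry G 0 z := by
  have h : ∀ z : B G 1, pt G (augX X (iota X 0 z)) = bdry G 0 z := by
    intro z
    induction z using Finsupp.induction_linear with
    | zero => simp [pt]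
    | add f g hf hg =>
      rw [map_add, map_add, map_add, ← hf, ← hg, pt, pt, pt, Finsupp.single_add]
    | single x m =>
      rw [iota, lin_single, map_zsmul, augX_trX, bp_spec, bdry_single, Fin.sum_univ_one, pt]
      simp only [Fin.val_zero, pow_zero, one_smul, smul_eq_mul, mul_one]
      congr 1
      exact Subsingleton.elim _ _
  exact h z

lemma pt_injective {T : Type} {a b : ℤ} (h : pt T a = pt T b) : a = b :=
  Finsupp.single_injective _ h

lemma dX_iota : ∀ (n : ℕ) (z : B G (n + 2)),
    dX X n (iota X (n + 1) z) = iota X n (bdry G (n + 1) z) := by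
  intro n z
  have h : (dX X n).comp (iota X (n + 1)) = (iota X n).comp (bdry G (n + 1)) := by
    refine hom_ext fun x => ?_
    rw [AddMonoidHom.comp_apply, AddMonoidHom.comp_apply, iota, lin_single, one_smul, dX_trX,
      dX_apply]
    have hex : ∃ y, Matrix.vecMul y (X.d n) =
        iota X n (tr (x 0)⁻¹ (n + 1) (bdry G (n + 1) (sx x))) := by
      rw [iota_tr]
      suffices h1 : ∃ y, Matrix.vecMul y (X.d n) = iota X n (bdry G (n + 1) (sx x)) by
        obtain ⟨y, hy⟩ := h1
        exact ⟨trX (x 0)⁻¹ y, by rw [trX_vecMul, hy]⟩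
      induction n with
      | zero =>
        refine (X.exact_zero _).1 ?_
        rw [← augX_apply]
        apply pt_injective (T := G)
        rw [augX_iota, bdry_bdry, pt, Finsupp.single_zero]
      | succ n ih =>
        refine (X.exact_succ n _).1 ?_
        rw [← dX_apply]
        have h2 : ∀ w : B G (n + 2),
            dX X n (iota X (n + 1) w) = iota X n (bdry G (n + 1) w) := by
          intro w
          have h3 : (dX X n).comp (iota X (n + 1)) = (iota X n).comp (bdry G (n + 1)) := by
            refine hom_ext fun x => ?_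
            rw [AddMonoidHom.comp_apply, AddMonoidHom.comp_apply, iota, lin_single, one_smul,
              dX_trX, dX_apply]
            have h4 : ∃ y, Matrix.vecMul y (X.d n) =
                iota X n (tr (x 0)⁻¹ (n + 1) (bdry G (n + 1) (sx x))) := by
              rw [iota_tr]
              obtain ⟨y, hy⟩ := ih (sx x) x
              exact ⟨trX (x 0)⁻¹ y, by rw [trX_vecMul, hy]⟩
            rw [fill_spec X n _ h4, iota_tr, ← trX_mul, mul_inv_cancel, trX_one]
          exact DFunLike.congr_fun h3 w
        rw [h2, bdry_bdry, map_zero]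
    rw [fill_spec X n _ hex, iota_tr, ← trX_mul, mul_inv_cancel, trX_one]
  exact DFunLike.congr_fun h z

lemma cone_tr (g t : G) {n : ℕ} (z : B G n) :
    cone (g * t) n (tr g n z) = tr g (n + 1) (cone t n z) := (push_cone _ _ _).symm

/-- the homotopy -/
def Hh : ∀ n : ℕ, B G (n + 1) →+ B G (n + 2)
  | 0 => lin fun x => cone (x 0) 1 (Phi X 0 (iota X 0 (sx x)) - sx x)
  | n + 1 => lin fun x => cone (x 0) (n + 2)
      (Phi X (n + 1) (iota X (n + 1) (sx x)) - sx x - Hh n (bdry G (n + 1) (sx x)))

lemma Hh_sx (n : ℕ) (x : Fin (n + 2) → G) : Hh X (n + 1) (sx x) = cone (x 0) (n + 2)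
    (Phi X (n + 1) (iota X (n + 1) (sx x)) - sx x - Hh X n (bdry G (n + 1) (sx x))) := by
  rw [Hh, lin_single, one_smul]

lemma Hh_tr : ∀ (n : ℕ) (g : G) (z : B G (n + 1)),
    Hh X n (tr g (n + 1) z) = tr g (n + 2) (Hh X n z) := by
  intro n g
  induction n with
  | zero =>
    intro z
    have h : (Hh X 0).comp (tr g 1) = (tr g 2).comp (Hh X 0) := by
      refine hom_ext fun x => ?_
      rw [AddMonoidHom.comp_apply, AddMonoidHom.comp_apply, tr_single, Hh, lin_single, lin_single,
        one_smul, one_smul]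
      have e : (sx fun a => g * x a : B G 1) = tr g 1 (sx x) := (tr_single _ _ _).symm
      rw [e, iota_tr, Phi_tr, ← map_sub, cone_tr]
    exact DFunLike.congr_fun h z
  | succ n ih =>
    intro z
    have h : (Hh X (n + 1)).comp (tr g (n + 2)) = (tr g (n + 3)).comp (Hh X (n + 1)) := by
      refine hom_ext fun x => ?_
      rw [AddMonoidHom.comp_apply, AddMonoidHom.comp_apply, tr_single, Hh, lin_single, lin_single,
        one_smul, one_smul]
      have e : (sx fun a => g * x a : B G (n + 2)) = tr g (n + 2) (sx x) := (tr_single _ _ _).symm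
      rw [e, iota_tr, Phi_tr, bdry_tr, ih, ← map_sub, ← map_sub, cone_tr]
    exact DFunLike.congr_fun h z

lemma bdry_Hh_zero (z : B G 1) : bdry G 1 (Hh X 0 z) = Phi X 0 (iota X 0 z) - z := by
  have h : (bdry G 1).comp (Hh X 0) = (Phi X 0).comp (iota X 0) - AddMonoidHom.id _ := by
    refine hom_ext fun x => ?_
    rw [AddMonoidHom.comp_apply, Hh, lin_single, one_smul, bdry_cone, map_sub, bdry_Phi_zero,
      augX_iota, sub_self, map_zero, sub_zero]
    rfl
  exact DFunLike.congr_fun h z

lemma bdry_Hh_succ : ∀ (n : ℕ) (z : B G (n + 2)), bdry G (n + 2) (Hh X (n + 1) z) =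
    Phi X (n + 1) (iota X (n + 1) z) - z - Hh X n (bdry G (n + 1) z) := by
  intro n
  have key : ∀ z : B G (n + 2), bdry G (n + 1)
      (Phi X (n + 1) (iota X (n + 1) z) - z - Hh X n (bdry G (n + 1) z)) = 0 ∧
      bdry G (n + 2) (Hh X (n + 1) z) =
        Phi X (n + 1) (iota X (n + 1) z) - z - Hh X n (bdry G (n + 1) z) := by
    induction n with
    | zero =>
      have h1 : ∀ z : B G 2, bdry G 1
          (Phi X 1 (iota X 1 z) - z - Hh X 0 (bdry G 1 z)) = 0 := by
        intro z
        rw [map_sub, map_sub, bdry_Phi_succ, ← dX_apply, dX_iota, bdry_Hh_zero]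
        abel
      intro z
      refine ⟨h1 z, ?_⟩
      have h : (bdry G 2).comp (Hh X 1) = (Phi X 1).comp (iota X 1) - AddMonoidHom.id _ -
          (Hh X 0).comp (bdry G 1) := by
        refine hom_ext fun x => ?_
        rw [AddMonoidHom.comp_apply]
        change bdry G _ (Hh X _ (sx x)) = _
        rw [Hh_sx, bdry_cone, h1, map_zero, sub_zero]
        rfl
      exact DFunLike.congr_fun h z
    | succ n ih =>
      have h1 : ∀ z : B G (n + 3), bdry G (n + 2)
          (Phi X (n + 2) (iota X (n + 2) z) - z - Hh X (n + 1) (bdry G (n + 2) z)) = 0 := by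
        intro z
        rw [map_sub, map_sub, bdry_Phi_succ, ← dX_apply, dX_iota, (ih _).2, bdry_bdry, map_zero]
        abel
      intro z
      refine ⟨h1 z, ?_⟩
      have h : (bdry G (n + 3)).comp (Hh X (n + 2)) = (Phi X (n + 2)).comp (iota X (n + 2)) -
          AddMonoidHom.id _ - (Hh X (n + 1)).comp (bdry G (n + 2)) := by
        refine hom_ext fun x => ?_
        rw [AddMonoidHom.comp_apply]
        change bdry G _ (Hh X _ (sx x)) = _
        rw [Hh_sx, bdry_cone, h1, map_zero, sub_zero]
        rfl
      exact DFunLike.congr_fun h z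
  exact fun z => (key z).2

end

end Pool.Agent.Helper80.SE
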