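import Mathlib

/-!
Homogeneous cochains of a group with values in the square summable functions on the group, and
coset spaces of subexponential growth.

A `K`-equivariant map `C` from `K^m` to the functions on `K` is determined by `c(x) = C(x)(1)`, a
complex function on `K^m`, by the formula `C(x)(k) = c(k⁻¹ x)`. The squared norm of `C(x)` in
`ℓ²(K)` is the sum of the `|c(k x)|²` over `k ∈ K`.
-/

set_option autoImplicit false

namespace Pool.Agent.Helper80.SE.St

section cochains

variable {K : Type} [Group K]

/-- The coboundary `(δ c)(x_0, …, x_m) = ∑ (-1)^a c(x_0, …, x̂_a, …, x_m)` of a function of `m`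
variables. -/
noncomputable def cob {m : ℕ} (c : (Fin m → K) → ℂ) (x : Fin (m + 1) → K) : ℂ :=
  ∑ a : Fin (m + 1), (-1 : ℂ) ^ (a : ℕ) * c (fun b => x (a.succAbove b))

/-- The function `c` on `K^m` defines a `K`-equivariant map from `K^m` to `ℓ²(K)`. -/
def IsL2 {m : ℕ} (c : (Fin m → K) → ℂ) : Prop :=
  ∀ x : Fin m → K, Summable fun k : K => ‖c (fun a => k * x a)‖ ^ 2

/-- The squared norm `∑_k |c(k x)|²` of the value at `x` of the `K`-equivariant map from `K^m` to
`ℓ²(K)` defined by `c`. -/
noncomputable def sqNorm {m : ℕ} (c : (Fin m → K) → ℂ) (x : Fin m → K) : ℝ :=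
  ∑' k : K, ‖c (fun a => k * x a)‖ ^ 2

/-- `c` is a homogeneous cocycle of degree `n + 1` of `K` with values in `ℓ²(K)`, and its class in
`H^(n+1)(K; ℓ²(K))` is not zero. -/
def NonzeroClass {n : ℕ} (c : (Fin (n + 2) → K) → ℂ) : Prop :=
  IsL2 c ∧ cob c = 0 ∧ ∀ b : (Fin (n + 1) → K) → ℂ, IsL2 b → cob b ≠ c

/-- The cochain `c` is bounded. -/
def Bounded {m : ℕ} (c : (Fin m → K) → ℂ) : Prop := ∃ C : ℝ, ∀ x, sqNorm c x ≤ C

end cochains

section growth

variable {G : Type} [Group G] (K : Subgroup G)

/-- The function `L` on `G/K` changes under each element of `G` by a bounded amount, and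
`∑ e^(-ε L(x))` is finite for all `ε > 0`. If `G` is generated by a finite set, then the distance
from a base point in the Schreier graph of `G/K` is such a function if and only if the Schreier
graph has subexponential growth. -/
structure SlowLength (L : G ⧸ K → ℝ) : Prop where
  /-- bounded change -/
  lip : ∀ g : G, ∃ C : ℝ, ∀ x, L (g • x) ≤ L x + C
  /-- subexponential growth -/
  sum : ∀ ε : ℝ, 0 < ε → Summable fun x => Real.exp (-(ε * L x))

/-- `r : G → K` is a `K`-equivariant retraction, and `c` is a cochain of `K` such that the norm of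
`c(r(g t_0), …, r(g t_m))` in `ℓ²(K)` grows subexponentially with `L(g⁻¹ K)`, if the `t_a` are taken
from a finite set. -/
structure SlowAlong (L : G ⧸ K → ℝ) {m : ℕ} (r : G → K) (c : (Fin m → K) → ℂ) : Prop where
  /-- equivariance -/
  equi : ∀ (k : K) (g : G), r (k * g) = k * r g
  /-- normalisation; together with the equivariance it says that `r` is the identity on `K` -/
  one : r 1 = 1
  /-- slow growth -/
  slow : ∀ (T : Finset G) (ε : ℝ), 0 < ε → ∃ C : ℝ, ∀ (g : G) (t : Fin m → G), (∀ a, t a ∈ T) →
    sqNorm c (fun a => r (g * t a)) ≤ C * Real.exp (ε * L ((g⁻¹ : G) : G ⧸ K))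

end growth

end Pool.Agent.Helper80.SE.St
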