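import Pool.Agent.Helper80.SE.Comp2
import Pool.Agent.Helper80.SE.Stmt
import Pool.Graph.R_pool_sql_team_seeded_64922ed1.X270.NT.FinalW

/-!
Proof of the theorem on extensions with subexponential quotient.
-/

set_option autoImplicit false

open scoped Pointwise

namespace Pool.Agent.Helper80.SE

open Pool.Agent.H919R4.ZS (FinRes augm toRed)
open Pool.Agent.H496R3.ZS (IsAmenable)
open Pool.Agent.Helper80.SE.St
open Pool.Agent.X270.NT.W (actF cobd Sq SlowWeight SeenByWeight finalW)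

noncomputable section

/-! ### weighted square summable functions -/

/-- weighted square summability -/
def Sqw {ι : Type} (μ : ι → ℝ) (f : ι → ℂ) : Prop := Summable fun i => ‖f i‖ ^ 2 * μ i

lemma Sqw.zero {ι : Type} (μ : ι → ℝ) : Sqw μ (0 : ι → ℂ) := by
  simp [Sqw, summable_zero]

lemma Sqw.add {ι : Type} {μ : ι → ℝ} (hμ : ∀ i, 0 ≤ μ i) {f g : ι → ℂ} (hf : Sqw μ f)
    (hg : Sqw μ g) : Sqw μ (f + g) := by
  refine Summable.of_nonneg_of_le (fun i => mul_nonneg (by positivity) (hμ i)) (fun i => ?_)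
    ((Summable.add hf hg).mul_left 2)
  have h1 : ‖(f + g) i‖ ^ 2 ≤ 2 * (‖f i‖ ^ 2 + ‖g i‖ ^ 2) := by
    have h2 : ‖(f + g) i‖ ≤ ‖f i‖ + ‖g i‖ := norm_add_le _ _
    have h3 : ‖(f + g) i‖ ^ 2 ≤ (‖f i‖ + ‖g i‖) ^ 2 := pow_le_pow_left₀ (norm_nonneg _) h2 2
    nlinarith [sq_nonneg (‖f i‖ - ‖g i‖)]
  calc ‖(f + g) i‖ ^ 2 * μ i ≤ 2 * (‖f i‖ ^ 2 + ‖g i‖ ^ 2) * μ i :=
        mul_le_mul_of_nonneg_right h1 (hμ i)
    _ = 2 * (‖f i‖ ^ 2 * μ i + ‖g i‖ ^ 2 * μ i) := by ring

lemma Sqw.zsmul {ι : Type} {μ : ι → ℝ} {f : ι → ℂ} (hf : Sqw μ f) (m : ℤ) : Sqw μ (m • f) := by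
  refine (Summable.mul_left (‖(m : ℂ)‖ ^ 2) hf).congr fun i => ?_
  have : ‖(m • f) i‖ = ‖(m : ℂ)‖ * ‖f i‖ := by
    rw [Pi.smul_apply, zsmul_eq_mul, norm_mul]
  simp only [this]
  ring

lemma Sqw.sum {ι κ : Type} {μ : ι → ℝ} (hμ : ∀ i, 0 ≤ μ i) (s : Finset κ) {f : κ → ι → ℂ}
    (hf : ∀ j ∈ s, Sqw μ (f j)) : Sqw μ (∑ j ∈ s, f j) := by
  classical
  induction s using Finset.induction_on with
  | empty => rw [Finset.sum_empty]; exact Sqw.zero μ
  | insert a s ha ih =>
    rw [Finset.sum_insert ha]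
    exact (hf a (Finset.mem_insert_self _ _)).add hμ
      (ih fun j hj => hf j (Finset.mem_insert_of_mem hj))

lemma sqw_one {ι : Type} (f : ι → ℂ) : Sqw (fun _ => 1) f ↔ Summable fun i => ‖f i‖ ^ 2 := by
  simp [Sqw]

/-! ### functionals on chains -/

/-- evaluation of a function on chains -/
def ev {T : Type} {m : ℕ} (c : (Fin m → T) → ℂ) : B T m →+ ℂ := lin c

lemma ev_single {T : Type} {m : ℕ} (c : (Fin m → T) → ℂ) (x : Fin m → T) (z : ℤ) :
    ev c (Finsupp.single x z) = z • c x := lin_single _ _ _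

lemma ev_sx {T : Type} {m : ℕ} (c : (Fin m → T) → ℂ) (x : Fin m → T) : ev c (sx x) = c x := by
  rw [ev_single, one_smul]

lemma ev_push {T U : Type} {m : ℕ} (c : (Fin m → U) → ℂ) (r : T → U) (z : B T m) :
    ev c (push r m z) = ev (fun x => c (r ∘ x)) z := by
  have h : (ev c).comp (push r m) = ev (fun x => c (r ∘ x)) := by
    refine hom_ext fun x => ?_
    rw [AddMonoidHom.comp_apply, push_single, ev_single, ev_single]
  exact DFunLike.congr_fun h z

lemma ev_bdry {K : Type} [Group K] {m : ℕ} (c : (Fin m → K) → ℂ) (z : B K (m + 1)) :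
    ev c (bdry K m z) = ev (cob c) z := by
  have h : (ev c).comp (bdry K m) = ev (cob c) := by
    refine hom_ext fun x => ?_
    rw [AddMonoidHom.comp_apply, bdry_single, map_sum, ev_single, one_smul, cob]
    refine Finset.sum_congr rfl fun a _ => ?_
    rw [map_zsmul, ev_single, one_smul, zsmul_eq_mul]
    push_cast
    rfl
  exact DFunLike.congr_fun h z

lemma ev_zero {T : Type} {m : ℕ} (z : B T m) : ev (0 : (Fin m → T) → ℂ) z = 0 := by
  have h : ev (0 : (Fin m → T) → ℂ) = 0 := by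
    refine hom_ext fun x => ?_
    rw [ev_single]
    simp
  rw [h, AddMonoidHom.zero_apply]

variable {G : Type} [Group G]

/-- the action on functions -/
def rhoF (G : Type) [Group G] : G →* AddMonoid.End (G → ℂ) where
  toFun g :=
    { toFun := fun f y => f (g⁻¹ * y)
      map_zero' := rfl
      map_add' := fun _ _ => rfl }
  map_one' := by
    refine AddMonoidHom.ext fun f => funext fun y => ?_
    change f (1⁻¹ * y) = f y
    rw [inv_one, one_mul]
  map_mul' g h := by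
    refine AddMonoidHom.ext fun f => funext fun y => ?_
    change f ((g * h)⁻¹ * y) = f (h⁻¹ * (g⁻¹ * y))
    rw [mul_inv_rev, mul_assoc]

lemma rhoF_apply (g : G) (f : G → ℂ) (y : G) : rhoF G g f y = f (g⁻¹ * y) := rfl

lemma ring_rhoF (a : MonoidAlgebra ℤ G) (f : G → ℂ) : ring (rhoF G) a f =
    ∑ g ∈ a.coeff.support, a.coeff g • fun y => f (g⁻¹ * y) := by
  change (MonoidAlgebra.lift ℤ (AddMonoid.End (G → ℂ)) G (rhoF G)) a f = _
  rw [MonoidAlgebra.lift_apply, Finsupp.sum, end_sum]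
  rfl

lemma actF_eq (a : MonoidAlgebra ℤ G) (f : G → ℂ) : actF a f = ring (rhoF G) a f := by
  rw [ring_rhoF]
  funext y
  rw [Finset.sum_apply]
  rfl

variable (X : FinRes G)

lemma cobd_eq (i : ℕ) (v : Fin (X.n i) → G → ℂ) (k : Fin (X.n (i + 1))) :
    cobd X i v k = liftB (rhoF G) v (X.d i k) := by
  funext z
  rw [liftB_apply, Finset.sum_apply]
  change ∑ j, actF (X.d i k j) (v j) z = _
  refine Finset.sum_congr rfl fun j _ => ?_
  rw [actF_eq]

lemma liftB_cobd (i : ℕ) (v : Fin (X.n i) → G → ℂ) (z : Fin (X.n (i + 1)) → MonoidAlgebra ℤ G) :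
    liftB (rhoF G) (cobd X i v) z = liftB (rhoF G) v (dX X i z) := by
  rw [dX_apply, liftB_vecMul, liftB_apply]
  refine Finset.sum_congr rfl fun k _ => ?_
  rw [cobd_eq]

lemma equiv_liftB {A : Type} [AddCommGroup A] (ρ : G →* AddMonoid.End A) {m : ℕ}
    (f : (Fin m → MonoidAlgebra ℤ G) →+ A) (h : ∀ g z, f (trX g z) = ρ g (f z))
    (z : Fin m → MonoidAlgebra ℤ G) : liftB ρ (fun j => f (Pi.single j 1)) z = f z := by
  classical
  have h1 : ∀ (j : Fin m) (a : MonoidAlgebra ℤ G),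
      ring ρ a (f (Pi.single j 1)) = f (Pi.single j a) := by
    intro j a
    refine MonoidAlgebra.induction_linear a ?_ ?_ ?_
    · simp
    · intro x y hx hy
      rw [map_add, end_add, hx, hy, ← map_add, ← Pi.single_add]
    · intro g k
      rw [ring_single, ← h, ← map_zsmul]
      congr 1
      funext l
      rw [Pi.smul_apply, trX_apply]
      by_cases hl : l = j
      · subst hl
        rw [Pi.single_eq_same, Pi.single_eq_same, mul_one, MonoidAlgebra.smul_single, smul_eq_mul,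
          mul_one]
      · rw [Pi.single_eq_of_ne hl, Pi.single_eq_of_ne hl, mul_zero, smul_zero]
  rw [liftB_apply, Finset.sum_congr rfl fun j _ => h1 j (z j), ← map_sum,
    Finset.univ_sum_single]

/-- translates of the value of a function on a chain -/
def Psi {m : ℕ} (c : (Fin m → G) → ℂ) : B G m →+ (G → ℂ) where
  toFun z y := ev c (tr y⁻¹ m z)
  map_zero' := by funext y; simp
  map_add' z w := by funext y; simp

lemma Psi_apply {m : ℕ} (c : (Fin m → G) → ℂ) (z : B G m) (y : G) :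
    Psi c z y = ev c (tr y⁻¹ m z) := rfl

lemma Psi_tr {m : ℕ} (c : (Fin m → G) → ℂ) (g : G) (z : B G m) :
    Psi c (tr g m z) = rhoF G g (Psi c z) := by
  funext y
  rw [rhoF_apply, Psi_apply, Psi_apply, mul_inv_rev, inv_inv, ← tr_mul]

end

end Pool.Agent.Helper80.SE
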