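import Pool.Agent.Helper80.SE.Main

/-!
Proof of the theorem on extensions with subexponential quotient: the main argument.
-/

set_option autoImplicit false

open scoped Pointwise

namespace Pool.Agent.Helper80.SE

open Pool.Agent.H919R4.ZS (FinRes augm toRed)
open Pool.Agent.H496R3.ZS (IsAmenable)
open Pool.Agent.Helper80.SE.St
open Pool.Agent.X270.NT.W (actF cobd Sq SlowWeight SeenByWeight finalW)

noncomputable section

variable {G : Type} [Group G] {K : Subgroup G}

/-- the bijection of `G` with `G/K × K` -/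
def cosetEquiv (K : Subgroup G) : (G ⧸ K) × K ≃ G where
  toFun u := u.1.out * u.2
  invFun g := (g, ⟨(g : G ⧸ K).out⁻¹ * g, QuotientGroup.eq.1 (Quotient.out_eq' _)⟩)
  left_inv := by
    rintro ⟨x, k⟩
    have h1 : (((x.out * k : G)) : G ⧸ K) = x := by
      rw [QuotientGroup.mk_mul_of_mem _ k.2]
      exact Quotient.out_eq' x
    refine Prod.ext h1 (Subtype.ext ?_)
    change (((x.out * k : G)) : G ⧸ K).out⁻¹ * (x.out * k) = k
    rw [h1, inv_mul_cancel_left]
  right_inv := fun g => mul_inv_cancel_left _ _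

lemma cosetEquiv_apply (u : (G ⧸ K) × K) : cosetEquiv K u = u.1.out * u.2 := rfl

lemma mk_cosetEquiv (u : (G ⧸ K) × K) : ((cosetEquiv K u : G) : G ⧸ K) = u.1 := by
  rw [cosetEquiv_apply, QuotientGroup.mk_mul_of_mem _ u.2.2]
  exact Quotient.out_eq' u.1

lemma sqNorm_nonneg {K : Type} [Group K] {m : ℕ} (c : (Fin m → K) → ℂ) (x : Fin m → K) :
    0 ≤ sqNorm c x := tsum_nonneg fun _ => by positivity

/-- square summability of a slow cochain -/
lemma sqw_slow {L : G ⧸ K → ℝ} (hL : SlowLength K L) {m : ℕ} {r : G → K}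
    {c : (Fin m → K) → ℂ} (hc : IsL2 c) (hs : SlowAlong K L r c) {δ : ℝ} (hδ : 0 < δ)
    (t : Fin m → G) :
    Sqw (fun y : G => Real.exp (-(δ * L (y : G ⧸ K)))) (fun y => c (fun a => r (y⁻¹ * t a))) := by
  classical
  obtain ⟨C, hC⟩ := hs.slow (Finset.univ.image t) (δ / 2) (by positivity)
  rw [Sqw, ← (cosetEquiv K).summable_iff]
  rw [summable_prod_of_nonneg (f := (fun y : G => ‖c (fun a => r (y⁻¹ * t a))‖ ^ 2 *
    Real.exp (-(δ * L (y : G ⧸ K)))) ∘ (cosetEquiv K))
    (fun u => mul_nonneg (by positivity) (Real.exp_pos _).le)]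
  have e : ∀ (x : G ⧸ K) (k : K),
      (fun a => r ((cosetEquiv K (x, k))⁻¹ * t a)) =
        fun a => k⁻¹ * r ((x.out)⁻¹ * t a) := by
    intro x k
    funext a
    rw [cosetEquiv_apply, mul_inv_rev, mul_assoc]
    have := hs.equi k⁻¹ ((x.out)⁻¹ * t a)
    rw [Subgroup.coe_inv] at this
    exact this
  have e2 : ∀ x : G ⧸ K, Summable fun k : K => ‖c (fun a => k⁻¹ * r ((x.out)⁻¹ * t a))‖ ^ 2 :=
    fun x => (Equiv.inv K).summable_iff.2 (hc fun a => r ((x.out)⁻¹ * t a))
  constructor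
  · intro x
    refine ((e2 x).mul_right (Real.exp (-(δ * L x)))).congr fun k => ?_
    change _ = ‖c (fun a => r ((cosetEquiv K (x, k))⁻¹ * t a))‖ ^ 2 *
      Real.exp (-(δ * L ((cosetEquiv K (x, k) : G) : G ⧸ K)))
    rw [e, mk_cosetEquiv]
  · refine Summable.of_nonneg_of_le (fun x => tsum_nonneg fun k =>
      mul_nonneg (by positivity) (Real.exp_pos _).le) (fun x => ?_)
      ((hL.sum (δ / 2) (by positivity)).mul_left C)
    have h1 : ∑' k : K, (((fun y : G => ‖c (fun a => r (y⁻¹ * t a))‖ ^ 2 *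
        Real.exp (-(δ * L (y : G ⧸ K)))) ∘ (cosetEquiv K)) (x, k)) =
        sqNorm c (fun a => r ((x.out)⁻¹ * t a)) * Real.exp (-(δ * L x)) := by
      have h0 : sqNorm c (fun a => r ((x.out)⁻¹ * t a)) =
          ∑' k : K, ‖c (fun a => k⁻¹ * r ((x.out)⁻¹ * t a))‖ ^ 2 :=
        ((Equiv.inv K).tsum_eq fun k : K => ‖c (fun a => k * r ((x.out)⁻¹ * t a))‖ ^ 2).symm
      rw [h0, ← tsum_mul_right]
      refine tsum_congr fun k => ?_
      change ‖c (fun a => r ((cosetEquiv K (x, k))⁻¹ * t a))‖ ^ 2 *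
        Real.exp (-(δ * L ((cosetEquiv K (x, k) : G) : G ⧸ K))) = _
      rw [e, mk_cosetEquiv]
    rw [h1]
    have h2 := hC ((x.out)⁻¹) t fun a => Finset.mem_image_of_mem _ (Finset.mem_univ a)
    have h3 : (((x.out)⁻¹⁻¹ : G) : G ⧸ K) = x := by
      rw [inv_inv]; exact Quotient.out_eq' x
    rw [h3] at h2
    calc sqNorm c (fun a => r ((x.out)⁻¹ * t a)) * Real.exp (-(δ * L x))
        ≤ C * Real.exp (δ / 2 * L x) * Real.exp (-(δ * L x)) :=
          mul_le_mul_of_nonneg_right h2 (Real.exp_pos _).le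
      _ = C * Real.exp (-(δ / 2 * L x)) := by
          rw [mul_assoc, ← Real.exp_add]
          congr 2
          ring

/-- square summability of the values on a chain -/
lemma sqw_Psi {L : G ⧸ K → ℝ} (hL : SlowLength K L) {m : ℕ} {r : G → K}
    {c : (Fin m → K) → ℂ} (hc : IsL2 c) (hs : SlowAlong K L r c) {δ : ℝ} (hδ : 0 < δ)
    (z : B G m) : Sqw (fun y : G => Real.exp (-(δ * L (y : G ⧸ K))))
      (Psi (fun x => c (r ∘ x)) z) := by
  induction z using Finsupp.induction_linear with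
  | zero => rw [map_zero]; exact Sqw.zero _
  | add f g hf hg => rw [map_add]; exact hf.add (fun i => (Real.exp_pos _).le) hg
  | single x k =>
    have h1 : Psi (fun x => c (r ∘ x)) (Finsupp.single x k) =
        k • fun y : G => c (fun a => r (y⁻¹ * x a)) := by
      funext y
      rw [Psi_apply, tr_single, ev_single]
      rfl
    rw [h1]
    exact (sqw_slow hL hc hs hδ x).zsmul k

/-- the weight is slow -/
lemma slowWeight {L : G ⧸ K → ℝ} (hL : SlowLength K L) {S : Set G} (hS : S.Finite) {ε : ℝ}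
    (hε : 0 < ε) : ∃ δ : ℝ, 0 < δ ∧
      SlowWeight S ε (fun y : G => Real.exp (-(δ * L (y : G ⧸ K)))) := by
  choose C hC using hL.lip
  obtain ⟨M, hM⟩ : ∃ M : ℝ, ∀ s ∈ S, C s⁻¹ ≤ M := by
    obtain ⟨M, hM⟩ := (hS.image fun s => C s⁻¹).bddAbove
    exact ⟨M, fun s hs => hM (Set.mem_image_of_mem _ hs)⟩
  have hM1 : 0 < |M| + 1 := by positivity
  refine ⟨ε / (|M| + 1), by positivity, fun z => Real.exp_pos _, ?_, ?_⟩
  · intro s hs z
    rw [← Real.exp_add]
    refine Real.exp_le_exp.2 ?_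
    have h1 := hC s⁻¹ (((s • z : G)) : G ⧸ K)
    have h2 : s⁻¹ • (((s • z : G)) : G ⧸ K) = (z : G ⧸ K) := by
      rw [MulAction.Quotient.smul_coe, inv_smul_smul]
    rw [h2] at h1
    have h3 := hM s hs
    have h4 : L (z : G ⧸ K) - L (((s • z : G)) : G ⧸ K) ≤ |M| + 1 := by
      linarith [le_abs_self M]
    have h5 : ε / (|M| + 1) * (L (z : G ⧸ K) - L (((s • z : G)) : G ⧸ K)) ≤ ε := by
      calc _ ≤ ε / (|M| + 1) * (|M| + 1) := mul_le_mul_of_nonneg_left h4 (by positivity)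
        _ = ε := div_mul_cancel₀ _ hM1.ne'
    linarith
  · intro g
    refine ⟨Real.exp (ε / (|M| + 1) * C g⁻¹), fun z => ?_⟩
    rw [← Real.exp_add]
    refine Real.exp_le_exp.2 ?_
    have h1 := hC g⁻¹ (((g • z : G)) : G ⧸ K)
    have h2 : g⁻¹ • (((g • z : G)) : G ⧸ K) = (z : G ⧸ K) := by
      rw [MulAction.Quotient.smul_coe, inv_smul_smul]
    rw [h2] at h1
    have h3 : 0 < ε / (|M| + 1) := by positivity
    nlinarith [mul_le_mul_of_nonneg_left h1 h3.le]

end

end Pool.Agent.Helper80.SE
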