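import Pool.Agent.Helper80.SE.Main2

/-!
Proof of the theorem on extensions with subexponential quotient: conclusion.
-/

set_option autoImplicit false

open scoped Pointwise

namespace Pool.Agent.Helper80.SE

open Pool.Agent.H919R4.ZS (FinRes augm toRed)
open Pool.Agent.H496R3.ZS (IsAmenable)
open Pool.Agent.Helper80.SE.St
open Pool.Agent.X270.NT.W (actF cobd Sq SlowWeight SeenByWeight finalW)

noncomputable section

variable {G : Type} [Group G] {K : Subgroup G} (X : FinRes G)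

/-- the cochain on the resolution -/
def vv (n : ℕ) (r : G → K) (c : (Fin (n + 2) → K) → ℂ) (j : Fin (X.n (n + 1))) : G → ℂ :=
  Psi (fun x => c (r ∘ x)) (Phi X (n + 1) (Pi.single j 1))

lemma liftB_vv (n : ℕ) (r : G → K) (c : (Fin (n + 2) → K) → ℂ)
    (z : Fin (X.n (n + 1)) → MonoidAlgebra ℤ G) :
    liftB (rhoF G) (vv X n r c) z = Psi (fun x => c (r ∘ x)) (Phi X (n + 1) z) :=
  equiv_liftB (rhoF G) ((Psi fun x => c (r ∘ x)).comp (Phi X (n + 1)))
    (fun g z => by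
      rw [AddMonoidHom.comp_apply, Phi_tr, Psi_tr, AddMonoidHom.comp_apply]) z

/-- a cochain of `K` pulled back to `G` -/
lemma ev_pull_bdry {n : ℕ} (r : G → K) (c : (Fin (n + 2) → K) → ℂ) (hc : cob c = 0)
    (z : B G (n + 3)) : ev (fun x => c (r ∘ x)) (bdry G (n + 2) z) = 0 := by
  rw [← ev_push, ← bdry_push, ev_bdry, hc, ev_zero]

lemma cobd_vv (n : ℕ) (r : G → K) (c : (Fin (n + 2) → K) → ℂ) (hc : cob c = 0) :
    cobd X (n + 1) (vv X n r c) = 0 := by
  classical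
  funext k y
  have hk : (X.d (n + 1) k : Fin (X.n (n + 1)) → MonoidAlgebra ℤ G) =
      Matrix.vecMul (Pi.single k (1 : MonoidAlgebra ℤ G)) (X.d (n + 1)) := by
    rw [Matrix.single_one_vecMul]
    rfl
  rw [cobd_eq, liftB_vv, hk, ← bdry_Phi_succ, Psi_apply, ← bdry_tr, ev_pull_bdry r c hc]
  rfl

/-- the inclusion of chains -/
abbrev inK {m : ℕ} (x : Fin m → K) : B G m := sx fun a => (x a : G)

lemma bdry_inK {m : ℕ} (x : Fin (m + 1) → K) : bdry G m (inK x) =
    ∑ a : Fin (m + 1), ((-1 : ℤ) ^ (a : ℕ)) • inK (fun b => x (a.succAbove b)) :=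
  bdry_single _ _

/-- the cochain of `K` obtained from a primitive on the resolution -/
def bb (n : ℕ) (r : G → K) (c : (Fin (n + 2) → K) → ℂ) (w : Fin (X.n n) → G → ℂ)
    (x : Fin (n + 1) → K) : ℂ :=
  liftB (rhoF G) w (iota X n (inK x)) 1 - ev (fun x => c (r ∘ x)) (Hh X n (inK x))

lemma cob_bb (n : ℕ) (r : G → K) (hr : ∀ (k : K) (g : G), r (k * g) = k * r g)
    (hr1 : r 1 = 1) (c : (Fin (n + 2) → K) → ℂ) (hc : cob c = 0) (w : Fin (X.n n) → G → ℂ)
    (hw : cobd X n w = vv X n r c) : cob (bb X n r c w) = c := by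
  funext x
  have h1 : cob (bb X n r c w) x = liftB (rhoF G) w (iota X n (bdry G (n + 1) (inK x))) 1 -
      ev (fun x => c (r ∘ x)) (Hh X n (bdry G (n + 1) (inK x))) := by
    rw [bdry_inK, map_sum, map_sum, map_sum, map_sum, Finset.sum_apply, ← Finset.sum_sub_distrib,
      cob]
    refine Finset.sum_congr rfl fun a _ => ?_
    rw [map_zsmul, map_zsmul, map_zsmul, map_zsmul, Pi.smul_apply, bb, zsmul_eq_mul, zsmul_eq_mul]
    push_cast
    ring
  have h2 : liftB (rhoF G) w (iota X n (bdry G (n + 1) (inK x))) 1 =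
      ev (fun x => c (r ∘ x)) (Phi X (n + 1) (iota X (n + 1) (inK x))) := by
    rw [← dX_iota, ← liftB_cobd, hw, liftB_vv, Psi_apply, inv_one, tr_one]
  have h3 := bdry_Hh_succ X n (inK x)
  have h4 : Hh X n (bdry G (n + 1) (inK x)) = Phi X (n + 1) (iota X (n + 1) (inK x)) - inK x -
      bdry G (n + 2) (Hh X (n + 1) (inK x)) := by
    rw [h3]; abel
  rw [h1, h2, h4, map_sub, map_sub, ev_pull_bdry r c hc, ev_sx]
  have h5 : (r ∘ fun a => (x a : G)) = x := by
    funext a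
    have := hr (x a) 1
    rw [mul_one, hr1, mul_one] at this
    exact this
  rw [h5]
  ring

/-- restriction of weighted square summable functions to cosets -/
lemma restrict_coset {L : G ⧸ K → ℝ} {δ : ℝ} {f : G → ℂ}
    (hf : Sqw (fun y : G => Real.exp (-(δ * L (y : G ⧸ K)))) f) (g : G) :
    Summable fun k : K => ‖f (g * (k : G)⁻¹)‖ ^ 2 := by
  have hinj : Function.Injective fun k : K => g * (k : G)⁻¹ := by
    intro k l h
    have h1 : g * (k : G)⁻¹ = g * (l : G)⁻¹ := h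
    exact Subtype.ext (inv_injective (mul_left_cancel h1))
  have h1 := hf.comp_injective hinj
  have e : ∀ k : K, ((g * (k : G)⁻¹ : G) : G ⧸ K) = (g : G ⧸ K) := fun k =>
    QuotientGroup.mk_mul_of_mem _ (K.inv_mem k.2)
  refine (h1.mul_right (Real.exp (-(δ * L (g : G ⧸ K))))⁻¹).congr fun k => ?_
  change ‖f (g * (k : G)⁻¹)‖ ^ 2 * Real.exp (-(δ * L ((g * (k : G)⁻¹ : G) : G ⧸ K))) * _ = _
  rw [e, mul_assoc, mul_inv_cancel₀ (Real.exp_pos _).ne', mul_one]

lemma sum_liftB {L : G ⧸ K → ℝ} {δ : ℝ} {m : ℕ} {w : Fin m → G → ℂ}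
    (hw : Sq (fun y : G => Real.exp (-(δ * L (y : G ⧸ K)))) w)
    (z : Fin m → MonoidAlgebra ℤ G) :
    Sqw (fun _ : K => 1) fun k : K => liftB (rhoF G) w z (k : G)⁻¹ := by
  have e : (fun k : K => liftB (rhoF G) w z (k : G)⁻¹) = ∑ j, ∑ g ∈ (z j).coeff.support,
      (z j).coeff g • fun k : K => w j (g⁻¹ * (k : G)⁻¹) := by
    funext k
    rw [liftB_apply, Finset.sum_apply, Finset.sum_apply]
    refine Finset.sum_congr rfl fun j _ => ?_
    rw [ring_rhoF, Finset.sum_apply, Finset.sum_apply]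
    rfl
  rw [e]
  refine Sqw.sum (fun _ => zero_le_one) _ fun j _ => Sqw.sum (fun _ => zero_le_one) _ fun g _ => ?_
  exact Sqw.zsmul ((sqw_one _).2 (restrict_coset (hw j) g⁻¹)) _

lemma sum_ev {n : ℕ} {r : G → K} (hr : ∀ (k : K) (g : G), r (k * g) = k * r g)
    {c : (Fin n → K) → ℂ} (hc : IsL2 c) (z : B G n) :
    Sqw (fun _ : K => 1) fun k : K => ev (fun x => c (r ∘ x)) (tr (k : G) n z) := by
  induction z using Finsupp.induction_linear with
  | zero => simp only [map_zero]; exact Sqw.zero _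
  | add f g hf hg => simp only [map_add]; exact hf.add (fun _ => zero_le_one) hg
  | single x m =>
    have e : (fun k : K => ev (fun x => c (r ∘ x)) (tr (k : G) n (Finsupp.single x m))) =
        m • fun k : K => c (fun a => k * r (x a)) := by
      funext k
      rw [tr_single, ev_single]
      congr 2
      funext a
      exact hr k (x a)
    rw [e]
    exact Sqw.zsmul ((sqw_one _).2 (hc fun a => r (x a))) _

lemma isL2_bb {L : G ⧸ K → ℝ} {δ : ℝ} (n : ℕ) {r : G → K}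
    (hr : ∀ (k : K) (g : G), r (k * g) = k * r g) {c : (Fin (n + 2) → K) → ℂ} (hc : IsL2 c)
    {w : Fin (X.n n) → G → ℂ} (hw : Sq (fun y : G => Real.exp (-(δ * L (y : G ⧸ K)))) w) :
    IsL2 (bb X n r c w) := by
  intro x
  have e1 : ∀ k : K, inK (fun a => k * x a) = tr (k : G) (n + 1) (inK x) := by
    intro k
    rw [tr_single]
    rfl
  have e : (fun k : K => bb X n r c w (fun a => k * x a)) =
      (fun k : K => liftB (rhoF G) w (iota X n (inK x)) (k : G)⁻¹) +
      (-1 : ℤ) • fun k : K => ev (fun x => c (r ∘ x)) (tr (k : G) (n + 2) (Hh X n (inK x))) := by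
    funext k
    rw [bb, e1, iota_tr, Hh_tr, liftB_trX, rhoF_apply, mul_one, Pi.add_apply, Pi.smul_apply,
      neg_smul, one_smul, sub_eq_add_neg]
  have h := (sum_liftB hw (iota X n (inK x))).add (fun _ => zero_le_one)
    ((sum_ev hr hc (Hh X n (inK x))).zsmul (-1))
  rw [← e] at h
  exact (sqw_one _).1 h

lemma amenable_of_eq_one {H : Type} [Group H] (h : ∀ x : H, x = 1) : IsAmenable H := by
  intro S ε hε
  refine ⟨{1}, Finset.singleton_nonempty _, fun s _ => ?_⟩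
  have e : s • ((({1} : Finset H)) : Set H) = (({1} : Finset H) : Set H) := by
    rw [h s, one_smul]
  rw [e, symmDiff_self]
  simp only [Set.bot_eq_empty, Set.ncard_empty, Nat.cast_zero, Finset.card_singleton, Nat.cast_one,
    mul_one]
  exact hε.le

theorem main_slow {L : G ⧸ K → ℝ} (hL : SlowLength K L) (n : ℕ) {r : G → K}
    {c : (Fin (n + 2) → K) → ℂ} (hc : NonzeroClass c) (hs : SlowAlong K L r c) :
    ∃ i ≤ n + 1, Nontrivial (X.homology (toRed G) i) := by
  obtain ⟨hL2, hcob, hne⟩ := hc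
  refine finalW X (n + 1) fun S ε hS hε => ?_
  obtain ⟨δ, hδ, hμ⟩ := slowWeight hL hS hε
  refine ⟨G, inferInstance, _, hμ, Or.inl fun z => ?_, n + 1, le_rfl, Or.inl ?_⟩
  · refine amenable_of_eq_one fun g => Subtype.ext ?_
    have hg := g.2
    rw [MulAction.mem_stabilizer_iff, smul_eq_mul, mul_eq_right] at hg
    exact hg
  · refine ⟨vv X n r c, fun j => sqw_Psi hL hL2 hs hδ _, cobd_vv X n r c hcob, fun w hw h => ?_⟩
    exact hne (bb X n r c w) (isL2_bb X n hs.equi hL2 hw) (cob_bb X n r hs.equi hs.one c hcob w h)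

/-- an equivariant retraction -/
lemma exists_retr (K : Subgroup G) :
    ∃ r : G → K, (∀ (k : K) (g : G), r (k * g) = k * r g) ∧ r 1 = 1 := by
  have hmem : ∀ g : G, g * ((g⁻¹ : G) : G ⧸ K).out ∈ K := by
    intro g
    have h1 : (((g⁻¹ : G) : G ⧸ K).out : G ⧸ K) = ((g⁻¹ : G) : G ⧸ K) := Quotient.out_eq' _
    have h2 := QuotientGroup.eq.1 h1.symm
    rwa [inv_inv] at h2
  have hK : ∀ (k : K) (g : G), (((k * g : G)⁻¹ : G) : G ⧸ K) = ((g⁻¹ : G) : G ⧸ K) := by
    intro k g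
    rw [mul_inv_rev]
    exact QuotientGroup.mk_mul_of_mem _ (K.inv_mem k.2)
  let r : G → K := fun g => ⟨g * ((g⁻¹ : G) : G ⧸ K).out, hmem g⟩
  have hr : ∀ (k : K) (g : G), r (k * g) = k * r g := by
    intro k g
    refine Subtype.ext ?_
    change (k * g : G) * (((k * g : G)⁻¹ : G) : G ⧸ K).out = k * (g * ((g⁻¹ : G) : G ⧸ K).out)
    rw [hK, mul_assoc]
  refine ⟨fun g => r g * (r 1)⁻¹, fun k g => ?_, mul_inv_cancel _⟩
  change r (k * g) * (r 1)⁻¹ = k * (r g * (r 1)⁻¹)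
  rw [hr, mul_assoc]

lemma bddBelow_of_slow {L : G ⧸ K → ℝ} (hL : SlowLength K L) : ∃ M : ℝ, ∀ x, -M ≤ L x := by
  have h1 := hL.sum 1 one_pos
  refine ⟨∑' x, Real.exp (-(1 * L x)), fun x => ?_⟩
  have h2 := h1.le_tsum x fun y _ => (Real.exp_pos _).le
  have h3 := Real.add_one_le_exp (-(1 * L x))
  linarith

lemma slow_of_bounded {L : G ⧸ K → ℝ} (hL : SlowLength K L) {m : ℕ} {c : (Fin m → K) → ℂ}
    (hb : Bounded c) : ∃ r : G → K, SlowAlong K L r c := by
  obtain ⟨r, hr, hr1⟩ := exists_retr K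
  obtain ⟨C, hC⟩ := hb
  obtain ⟨M, hM⟩ := bddBelow_of_slow hL
  refine ⟨r, hr, hr1, fun T ε hε => ⟨|C| * Real.exp (ε * M), fun g t _ => ?_⟩⟩
  rw [mul_assoc, ← Real.exp_add]
  have h1 : 1 ≤ Real.exp (ε * M + ε * L ((g⁻¹ : G) : G ⧸ K)) := by
    refine Real.one_le_exp ?_
    have := hM ((g⁻¹ : G) : G ⧸ K)
    nlinarith
  calc sqNorm c _ ≤ C := hC _
    _ ≤ |C| * 1 := by rw [mul_one]; exact le_abs_self C
    _ ≤ _ := mul_le_mul_of_nonneg_left h1 (abs_nonneg C)

theorem final {L : G ⧸ K → ℝ} (hL : SlowLength K L) (n : ℕ) {c : (Fin (n + 2) → K) → ℂ}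
    (hc : NonzeroClass c) (h : Bounded c ∨ ∃ r : G → K, SlowAlong K L r c) :
    ∃ i ≤ n + 1, Nontrivial (X.homology (toRed G) i) := by
  obtain ⟨r, hr⟩ : ∃ r : G → K, SlowAlong K L r c := h.elim (slow_of_bounded hL) id
  exact main_slow X hL n hc hr

end

end Pool.Agent.Helper80.SE
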